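import Mathlib

/-!
# Definitions: rational points, double covers `y ^ 2 = h`, quadratic points
-/

set_option autoImplicit false

open AlgebraicGeometry CategoryTheory MonoidalCategory CartesianMonoidalCategory MonObj Limits

namespace Pool.Agent.MP_4e0920_nt

/-- The base `Spec ℚ`. -/
noncomputable abbrev SQ : Scheme := Spec (CommRingCat.of ℚ)

/-- The scheme `Spec K` over `Spec ℚ`. -/
noncomputable abbrev SpecOver (K : Type) [Field K] [Algebra ℚ K] : Over SQ :=
  Over.mk (Spec.map (CommRingCat.ofHom (algebraMap ℚ K)))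

/-- The action of a field automorphism `σ` of `K` on `Spec K`. -/
noncomputable def galAct {K : Type} [Field K] [Algebra ℚ K] (σ : K ≃ₐ[ℚ] K) :
    SpecOver K ⟶ SpecOver K :=
  Over.homMk (Spec.map (CommRingCat.ofHom σ.toRingEquiv.toRingHom)) (by
    simp only [Over.mk_left, Over.mk_hom, ← Spec.map_comp, ← CommRingCat.ofHom_comp]
    congr 2
    ext x
    simp)

/-- The affine line over `ℚ`. A morphism `h : X ⟶ Line` is a regular function on `X`. -/
noncomputable abbrev Line : Over SQ :=
  Over.mk (Spec.map (CommRingCat.ofHom (algebraMap ℚ (Polynomial ℚ))))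

/-- The squaring map `t ↦ t ^ 2` of the affine line. -/
noncomputable def sq : Line.left ⟶ Line.left :=
  Spec.map (CommRingCat.ofHom (Polynomial.aeval (Polynomial.X ^ 2 : Polynomial ℚ)).toRingHom)

/-- The map `t ↦ - t` of the affine line. -/
noncomputable def neg : Line.left ⟶ Line.left :=
  Spec.map (CommRingCat.ofHom (Polynomial.aeval (-Polynomial.X : Polynomial ℚ)).toRingHom)

/-- The rational point `a` of the affine line. -/
noncomputable def pt (a : ℚ) : SQ ⟶ Line.left :=
  Spec.map (CommRingCat.ofHom (Polynomial.aeval a : Polynomial ℚ →ₐ[ℚ] ℚ).toRingHom)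

lemma neg_sq : neg ≫ sq = sq := by
  simp only [neg, sq, ← Spec.map_comp, ← CommRingCat.ofHom_comp]
  congr 2
  apply Polynomial.ringHom_ext
  · intro a; simp
  · simp

/-- The double cover `y ^ 2 = h` of a scheme `X`, for a regular function `h` on `X`. -/
noncomputable abbrev dbl {X : Scheme} (h : X ⟶ Line.left) : Scheme := pullback h sq

/-- The projection to `X` of the double cover `y ^ 2 = h`. -/
noncomputable abbrev proj {X : Scheme} (h : X ⟶ Line.left) : dbl h ⟶ X := pullback.fst h sq

/-- The involution `y ↦ - y` of the double cover `y ^ 2 = h`. -/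
noncomputable def invo {X : Scheme} (h : X ⟶ Line.left) : dbl h ⟶ dbl h :=
  pullback.lift (pullback.fst h sq) (pullback.snd h sq ≫ neg)
    (by rw [Category.assoc, neg_sq, pullback.condition])

lemma invo_proj {X : Scheme} (h : X ⟶ Line.left) : invo h ≫ proj h = proj h := by
  exact pullback.lift_fst _ _ _

/-- The double cover `y ^ 2 = h` as a scheme over `ℚ`. -/
noncomputable abbrev DoubleCover {X : Over SQ} (h : X ⟶ Line) : Over SQ :=
  Over.mk (proj h.left ≫ X.hom)

/-- The involution `y ↦ - y` of the double cover `y ^ 2 = h`, as a morphism over `ℚ`. -/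
noncomputable def involution {X : Over SQ} (h : X ⟶ Line) : DoubleCover h ⟶ DoubleCover h :=
  Over.homMk (invo h.left) (by
    simp only [Over.mk_hom]
    rw [← Category.assoc, invo_proj])

/-- The set of the rational points of `X` (as points of the underlying space). -/
def rationalPoints (X : Over SQ) : Set X.left :=
  {x | ∃ s : SQ ⟶ X.left, s ≫ X.hom = 𝟙 _ ∧ ∃ y, s.base y = x}

/-- The set of the rational points `q` of `X` such that `h(q) = a` is not a square in `ℚ`. -/
def nonSquarePoints {X : Over SQ} (h : X ⟶ Line) : Set X.left :=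
  {x | ∃ (q : SQ ⟶ X.left) (a : ℚ), q ≫ X.hom = 𝟙 _ ∧ ¬ IsSquare a ∧ q ≫ h.left = pt a ∧
    ∃ y, q.base y = x}

/-- There is a point `p ∈ A(K)`, not in `A(ℚ)`, with `σ(p) = - p`. -/
def AntiPoint (A : Over SQ) [GrpObj A] (K : Type) [Field K] [Algebra ℚ K] (σ : K ≃ₐ[ℚ] K) :
    Prop :=
  ∃ p : Spec (CommRingCat.of K) ⟶ A.left,
    p ≫ A.hom = Spec.map (CommRingCat.ofHom (algebraMap ℚ K)) ∧
    (¬ ∃ s : Spec (CommRingCat.of ℚ) ⟶ A.left, s ≫ A.hom = 𝟙 _ ∧
        p = Spec.map (CommRingCat.ofHom (algebraMap ℚ K)) ≫ s) ∧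
    Spec.map (CommRingCat.ofHom σ.toRingEquiv.toRingHom) ≫ p =
      p ≫ (GrpObj.inv (X := A)).left

end Pool.Agent.MP_4e0920_nt
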