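import Pool.Agent.Lib_MP_4e0920_nt.Defs

/-!
# Quadratic points from double covers: proofs
-/

set_option autoImplicit false

open AlgebraicGeometry CategoryTheory MonoidalCategory CartesianMonoidalCategory MonObj Limits

namespace Pool.Agent.MP_4e0920_nt

/-! ## The `K`-points of `X_K` defined by rational points of `X` -/

section baseChange

variable {K : Type} [Field K] [Algebra ℚ K]

/-- The `K`-point of `X ⊗ Spec K` defined by a rational point of `X`. -/
noncomputable def bcPt (K : Type) [Field K] [Algebra ℚ K] {X : Over SQ}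
    (q : 𝟙_ (Over SQ) ⟶ X) : SpecOver K ⟶ X ⊗ SpecOver K :=
  (λ_ (SpecOver K)).inv ≫ (q ▷ SpecOver K)

lemma galAct_bcPt {X : Over SQ} (σ : K ≃ₐ[ℚ] K) (q : 𝟙_ (Over SQ) ⟶ X) :
    galAct σ ≫ bcPt K q = bcPt K q ≫ (X ◁ galAct σ) := by
  unfold bcPt
  rw [leftUnitor_inv_naturality_assoc, Category.assoc, whisker_exchange]

lemma range_bcPt {X : Over SQ} (q : 𝟙_ (Over SQ) ⟶ X) :
    Set.range (bcPt K q).left =
      (pullback.fst X.hom (SpecOver K).hom) ⁻¹' (Set.range q.left) := by
  unfold bcPt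
  rw [Over.comp_left, Over.whiskerRight_left, Scheme.Hom.comp_base]
  rw [TopCat.coe_comp, Function.Surjective.range_comp]
  · have := Scheme.Pullback.range_map (𝟙_ (Over SQ)).hom (SpecOver K).hom X.hom
      (SpecOver K).hom q.left (𝟙 _) (𝟙 _) (by simp) (by simp)
    rw [this]
    simp
  · have : IsIso (λ_ (SpecOver K)).inv.left :=
      inferInstanceAs (IsIso ((Over.forget _).map (λ_ (SpecOver K)).inv))
    exact (λ_ (SpecOver K)).inv.left.surjective

lemma dense_pts [Module.Finite ℚ K] {X : Over SQ} (hX : Dense (rationalPoints X)) :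
    Dense {x : (X ⊗ SpecOver K).left | ∃ q : 𝟙_ (Over SQ) ⟶ X,
      x ∈ Set.range (bcPt K q).left} := by
  have hop : UniversallyOpen (pullback.fst X.hom (SpecOver K).hom) := by
    dsimp
    infer_instance
  have h := hX.preimage (pullback.fst X.hom (SpecOver K).hom).isOpenMap
  refine h.mono ?_
  rintro x ⟨s, hs, y, hy⟩
  refine ⟨Over.homMk s (by simpa using hs), ?_⟩
  rw [range_bcPt]
  exact ⟨y, hy⟩

lemma eq_of_bcPt [Module.Finite ℚ K] {X A : Over SQ}
    [GeometricallyReduced X.hom] [IsSeparated A.hom] (hX : Dense (rationalPoints X))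
    {f g : X ⊗ SpecOver K ⟶ A} (h : ∀ q : 𝟙_ (Over SQ) ⟶ X,
      bcPt K q ≫ f = bcPt K q ≫ g) : f = g := by
  have : IsReduced (X ⊗ SpecOver K).left := by
    dsimp
    infer_instance
  ext1
  suffices IsDominant (equalizer.ι f.left g.left) from
    ext_of_isDominant_of_isSeparated A.hom (by simp) (equalizer.ι f.left g.left)
      (equalizer.condition _ _)
  refine ⟨(dense_pts (K := K) hX).mono ?_⟩
  rintro x ⟨q, y, rfl⟩
  refine ⟨equalizer.lift (bcPt K q).left (by rw [← Over.comp_left, ← Over.comp_left, h]) y, ?_⟩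
  rw [← Scheme.Hom.comp_apply, equalizer.lift_ι]

/-- Conjugating twice gives back the morphism. -/
lemma galAct_galAct {σ : K ≃ₐ[ℚ] K} (hσ : σ.trans σ = AlgEquiv.refl) :
    galAct σ ≫ galAct σ = 𝟙 (SpecOver K) := by
  ext1
  simp only [galAct, Over.comp_left, Over.homMk_left, ← Spec.map_comp, ← CommRingCat.ofHom_comp,
    Over.id_left]
  have : (σ.toRingEquiv.toRingHom.comp σ.toRingEquiv.toRingHom) = RingHom.id K := by
    ext x
    exact DFunLike.congr_fun hσ x
  rw [this]
  exact Spec.map_id _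

/-- The case of a constant double cover `X_K`, for any `X` with dense rational points. -/
theorem antiPoint_of_baseChange [Module.Finite ℚ K] {A X : Over SQ} [GrpObj A]
    [IsProper A.hom] [GeometricallyIntegral A.hom] [GeometricallyReduced X.hom]
    (hX : Dense (rationalPoints X)) {σ : K ≃ₐ[ℚ] K} (hσ : σ.trans σ = AlgEquiv.refl)
    (f : X ⊗ SpecOver K ⟶ A) (hf : f ^ 2 ≠ ((X ◁ galAct σ) ≫ f) ^ 2) : AntiPoint A K σ := by
  have : IsCommMonObj A := isCommMonObj_of_isProper_of_geometricallyIntegral A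
  obtain ⟨q, hq⟩ : ∃ q : 𝟙_ (Over SQ) ⟶ X,
      bcPt K q ≫ (f ^ 2) ≠ bcPt K q ≫ (((X ◁ galAct σ) ≫ f) ^ 2) := by
    by_contra hc
    push Not at hc
    exact hf (eq_of_bcPt hX hc)
  set g : X ⊗ SpecOver K ⟶ A := (X ◁ galAct σ) ≫ f with hg
  have hgf : (X ◁ galAct σ) ≫ g = f := by
    rw [hg, ← Category.assoc, ← MonoidalCategory.whiskerLeft_comp, galAct_galAct hσ]
    simp
  let p : SpecOver K ⟶ A := bcPt K q ≫ (f / g)
  have hp : galAct σ ≫ p = p⁻¹ := by
    change galAct σ ≫ bcPt K q ≫ (f / g) = (bcPt K q ≫ (f / g))⁻¹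
    rw [← Category.assoc, galAct_bcPt, Category.assoc, GrpObj.comp_div, hgf, ← hg, GrpObj.comp_div,
      GrpObj.comp_div, inv_div]
  refine ⟨p.left, Over.w p, ?_, ?_⟩
  · rintro ⟨s, hs, hps⟩
    apply hq
    have h1 : galAct σ ≫ p = p := by
      ext1
      rw [Over.comp_left, hps, ← Category.assoc]
      congr 1
      exact Over.w (galAct σ)
    have h2 : p * p = 1 := by
      rw [h1] at hp
      nth_rewrite 1 [hp]
      exact inv_mul_cancel p
    have h3 : p = (bcPt K q ≫ f) / (bcPt K q ≫ g) := GrpObj.comp_div _ _ _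
    have h4 : ∀ u : X ⊗ SpecOver K ⟶ A, bcPt K q ≫ (u ^ 2) = (bcPt K q ≫ u) ^ 2 := fun u => by
      rw [pow_two, pow_two, MonObj.comp_mul]
    rw [h4, h4]
    rw [h3, ← pow_two, div_pow, div_eq_one] at h2
    exact h2
  · exact congrArg (fun t => t.left) hp

end baseChange

/-! ## The field `ℚ(√a)` -/

lemma neg_neg : neg ≫ neg = 𝟙 _ := by
  simp only [neg, ← Spec.map_comp, ← CommRingCat.ofHom_comp]
  have : ((Polynomial.aeval (-Polynomial.X : Polynomial ℚ)).toRingHom.comp
      (Polynomial.aeval (-Polynomial.X : Polynomial ℚ)).toRingHom) =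
      RingHom.id (Polynomial ℚ) := by
    apply Polynomial.ringHom_ext
    · intro a; simp
    · simp
  rw [this]
  exact Spec.map_id _

lemma invo_invo {X : Scheme} (h : X ⟶ Line.left) : invo h ≫ invo h = 𝟙 _ := by
  apply pullback.hom_ext
  · rw [invo, Category.assoc, pullback.lift_fst, pullback.lift_fst, Category.id_comp]
  · rw [invo, Category.assoc, pullback.lift_snd, ← Category.assoc, pullback.lift_snd,
      Category.assoc, neg_neg, Category.comp_id, Category.id_comp]

section field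

variable (a : ℚ)

/-- The algebra `ℚ(√a)`. -/
abbrev Qa : Type := AdjoinRoot (Polynomial.X ^ 2 - Polynomial.C a : Polynomial ℚ)

lemma irr_of_not_isSquare {a : ℚ} (ha : ¬ IsSquare a) :
    Irreducible (Polynomial.X ^ 2 - Polynomial.C a : Polynomial ℚ) := by
  refine X_pow_sub_C_irreducible_of_prime Nat.prime_two fun b hb => ?_
  exact ha ⟨b, by rw [← hb, pow_two]⟩

lemma root_sq : (AdjoinRoot.root (Polynomial.X ^ 2 - Polynomial.C a : Polynomial ℚ)) ^ 2 =
    algebraMap ℚ (Qa a) a := by
  have := AdjoinRoot.eval₂_root (Polynomial.X ^ 2 - Polynomial.C a : Polynomial ℚ)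
  simp only [Polynomial.eval₂_sub, Polynomial.eval₂_pow, Polynomial.eval₂_X,
    Polynomial.eval₂_C, sub_eq_zero] at this
  exact this

/-- The conjugation of `ℚ(√a)`. -/
noncomputable def cj : Qa a →ₐ[ℚ] Qa a :=
  AdjoinRoot.liftAlgHom _ (Algebra.ofId ℚ (Qa a)) (-AdjoinRoot.root _) (by
    rw [Polynomial.eval₂_sub, Polynomial.eval₂_pow, Polynomial.eval₂_X, Polynomial.eval₂_C,
      _root_.neg_sq, root_sq, sub_eq_zero]
    rfl)

lemma cj_root : cj a (AdjoinRoot.root _) = - AdjoinRoot.root _ := by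
  simp [cj]

lemma cj_cj : (cj a).comp (cj a) = AlgHom.id ℚ (Qa a) := by
  apply AdjoinRoot.algHom_ext
  simp [cj_root]

/-- The conjugation of `ℚ(√a)` as an automorphism. -/
noncomputable def sg : Qa a ≃ₐ[ℚ] Qa a := AlgEquiv.ofAlgHom (cj a) (cj a) (cj_cj a) (cj_cj a)

lemma sg_root : sg a (AdjoinRoot.root _) = - AdjoinRoot.root _ := cj_root a

lemma finrank_Qa : Module.finrank ℚ (Qa a) = 2 := by
  have h : (Polynomial.X ^ 2 - Polynomial.C a : Polynomial ℚ).natDegree = 2 :=
    Polynomial.natDegree_X_pow_sub_C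
  have := finrank_quotient_span_eq_natDegree (K := ℚ)
    (f := (Polynomial.X ^ 2 - Polynomial.C a : Polynomial ℚ))
  rw [h] at this
  exact this

/-- The map `Spec ℚ(√a) ⟶ 𝔸¹` given by `√a`. -/
noncomputable def rt : Spec (CommRingCat.of (Qa a)) ⟶ Line.left :=
  Spec.map (CommRingCat.ofHom (AdjoinRoot.mk _))

/-- The structure map of `Spec ℚ(√a)`. -/
noncomputable def st : Spec (CommRingCat.of (Qa a)) ⟶ SQ :=
  Spec.map (CommRingCat.ofHom (algebraMap ℚ (Qa a)))

lemma isPushout_Qa : IsPushout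
    (CommRingCat.ofHom (Polynomial.aeval a : Polynomial ℚ →ₐ[ℚ] ℚ).toRingHom)
    (CommRingCat.ofHom (Polynomial.aeval (Polynomial.X ^ 2 : Polynomial ℚ)).toRingHom)
    (CommRingCat.ofHom (algebraMap ℚ (Qa a)))
    (CommRingCat.ofHom (AdjoinRoot.mk (Polynomial.X ^ 2 - Polynomial.C a : Polynomial ℚ))) := by
  have w : CommRingCat.ofHom (Polynomial.aeval a : Polynomial ℚ →ₐ[ℚ] ℚ).toRingHom ≫
      CommRingCat.ofHom (algebraMap ℚ (Qa a)) =
    CommRingCat.ofHom (Polynomial.aeval (Polynomial.X ^ 2 : Polynomial ℚ)).toRingHom ≫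
      CommRingCat.ofHom (AdjoinRoot.mk (Polynomial.X ^ 2 - Polynomial.C a : Polynomial ℚ)) := by
    rw [← CommRingCat.ofHom_comp, ← CommRingCat.ofHom_comp]
    congr 1
    apply Polynomial.ringHom_ext
    · intro b
      simp [AdjoinRoot.algebraMap_eq, ← AdjoinRoot.mk_C]
    · have := root_sq a
      simp only [AlgHom.toRingHom_eq_coe, RingHom.coe_comp, RingHom.coe_coe, Function.comp_apply,
        Polynomial.aeval_X, map_pow, AdjoinRoot.mk_X]
      exact this.symm
  refine ⟨⟨w⟩, ⟨PushoutCocone.IsColimit.mk _ (fun s => CommRingCat.ofHom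
    (AdjoinRoot.lift s.inl.hom (s.inr.hom Polynomial.X) ?_)) ?_ ?_ ?_⟩⟩
  · have h1 := congrArg (fun t => t.hom Polynomial.X) s.condition
    simp at h1
    rw [Polynomial.eval₂_sub, Polynomial.eval₂_pow, Polynomial.eval₂_X, Polynomial.eval₂_C, h1,
      sub_self]
  · intro s
    ext b
    simp
  · intro s
    ext1
    apply Polynomial.ringHom_ext
    · intro b
      have h1 := congrArg (fun t => t.hom (Polynomial.C b)) s.condition
      simp at h1 ⊢
      exact h1
    · simp
  · intro s m h1 h2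
    ext1
    apply AdjoinRoot.ringHom_ext
    · ext b
      have := congrArg (fun t => t.hom b) h1
      simpa [AdjoinRoot.algebraMap_eq] using this
    · have := congrArg (fun t => t.hom Polynomial.X) h2
      simp at this ⊢
      exact this

lemma isPullback_Qa : IsPullback (st a) (rt a) (pt a) sq :=
  isPullback_SpecMap_of_isPushout _ _ _ _ (isPushout_Qa a)

/-- The `ℚ(√a)`-point of the double cover `y ^ 2 = h` over a rational point `q` of `X` with
`h(q) = a`. -/
noncomputable def yp {X : Scheme} (h : X ⟶ Line.left) (q : SQ ⟶ X) (hq : q ≫ h = pt a) :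
    Spec (CommRingCat.of (Qa a)) ⟶ dbl h :=
  pullback.lift (st a ≫ q) (rt a) (by rw [Category.assoc, hq, (isPullback_Qa a).w])

lemma isPullback_yp {X : Scheme} (h : X ⟶ Line.left) (q : SQ ⟶ X) (hq : q ≫ h = pt a) :
    IsPullback (st a) (yp a h q hq) q (proj h) := by
  have h1 : IsPullback (proj h) (pullback.snd h sq) h sq := IsPullback.of_hasPullback h sq
  have h2 : IsPullback (st a) (yp a h q hq ≫ pullback.snd h sq) (q ≫ h) sq := by
    rw [hq, yp, pullback.lift_snd]
    exact isPullback_Qa a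
  exact (IsPullback.of_right h2.flip (pullback.lift_fst _ _ _) h1.flip).flip

lemma range_yp {X : Scheme} (h : X ⟶ Line.left) (q : SQ ⟶ X) (hq : q ≫ h = pt a) :
    Set.range (yp a h q hq) = (proj h) ⁻¹' (Set.range q) := by
  have := Scheme.image_preimage_eq_of_isPullback (isPullback_yp a h q hq) Set.univ
  simpa using this

/-- The Galois action on `Spec ℚ(√a)`. -/
noncomputable def gal : Spec (CommRingCat.of (Qa a)) ⟶ Spec (CommRingCat.of (Qa a)) :=
  Spec.map (CommRingCat.ofHom (sg a).toRingEquiv.toRingHom)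

lemma gal_st : gal a ≫ st a = st a := by
  simp only [gal, st, ← Spec.map_comp, ← CommRingCat.ofHom_comp]
  congr 2
  ext b
  exact (sg a).commutes b

lemma gal_rt : gal a ≫ rt a = rt a ≫ neg := by
  simp only [gal, rt, neg, ← Spec.map_comp, ← CommRingCat.ofHom_comp]
  congr 2
  apply Polynomial.ringHom_ext
  · intro b
    simp [AdjoinRoot.mk_C, ← AdjoinRoot.algebraMap_eq]
  · simp [sg_root]

lemma gal_yp {X : Scheme} (h : X ⟶ Line.left) (q : SQ ⟶ X) (hq : q ≫ h = pt a) :
    gal a ≫ yp a h q hq = yp a h q hq ≫ invo h := by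
  apply pullback.hom_ext
  · simp only [yp, invo, Category.assoc, pullback.lift_fst]
    rw [← Category.assoc, gal_st]
  · simp only [yp, invo, Category.assoc, pullback.lift_snd]
    rw [gal_rt, ← Category.assoc, pullback.lift_snd]

end field

/-! ## The projection of the double cover is open -/

lemma flat_of_injective {R S : Type*} [CommRing R] [IsDomain R] [IsPrincipalIdealRing R]
    [CommRing S] [IsDomain S] (f : R →+* S) (hf : Function.Injective f) : f.Flat := by
  algebraize [f]
  rw [RingHom.Flat]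
  have : FaithfulSMul R S := (faithfulSMul_iff_algebraMap_injective R S).mpr hf
  have : Module.IsTorsionFree R S := inferInstance
  exact (inferInstance : Module.Flat R S)

lemma flat_sq : Flat sq := by
  rw [sq, Flat.SpecMap_iff]
  apply flat_of_injective
  have h : (Polynomial.aeval (Polynomial.X ^ 2 : Polynomial ℚ) :
      Polynomial ℚ →ₐ[ℚ] Polynomial ℚ) = Polynomial.expand ℚ 2 := by
    ext
    simp
  rw [h]
  exact Polynomial.expand_injective (by norm_num)

lemma fp_sq : LocallyOfFinitePresentation sq := by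
  rw [sq, LocallyOfFinitePresentation.SpecMap_iff]
  apply RingHom.FinitePresentation.of_finiteType.mp
  refine RingHom.FiniteType.of_comp_finiteType (f := algebraMap ℚ (Polynomial ℚ)) ?_
  have : ((Polynomial.aeval (Polynomial.X ^ 2 : Polynomial ℚ)).toRingHom.comp
      (algebraMap ℚ (Polynomial ℚ))) = algebraMap ℚ (Polynomial ℚ) := by
    ext b
    simp
  change ((Polynomial.aeval (Polynomial.X ^ 2 : Polynomial ℚ)).toRingHom.comp
      (algebraMap ℚ (Polynomial ℚ))).FiniteType
  rw [this, RingHom.finiteType_algebraMap]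
  infer_instance

lemma open_proj {X : Scheme} (h : X ⟶ Line.left) : UniversallyOpen (proj h) := by
  have := flat_sq
  have := fp_sq
  have : UniversallyOpen sq := inferInstance
  infer_instance

/-! ## The main argument -/

lemma eq_of_points {X A : Over SQ} (h : X ⟶ Line) [IsReduced (dbl h.left)] [IsSeparated A.hom]
    (hX : Dense (nonSquarePoints h)) {f g : DoubleCover h ⟶ A}
    (H : ∀ (q : SQ ⟶ X.left) (a : ℚ) (hq : q ≫ h.left = pt a), q ≫ X.hom = 𝟙 _ → ¬ IsSquare a →
      yp a h.left q hq ≫ f.left = yp a h.left q hq ≫ g.left) : f = g := by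
  ext1
  have : IsReduced (DoubleCover h).left := inferInstanceAs (IsReduced (dbl h.left))
  suffices IsDominant (equalizer.ι f.left g.left) from
    ext_of_isDominant_of_isSeparated A.hom (by simp) (equalizer.ι f.left g.left)
      (equalizer.condition _ _)
  have := open_proj h.left
  have hd := hX.preimage (proj h.left).isOpenMap
  refine ⟨hd.mono ?_⟩
  rintro x ⟨q, a, hq1, ha, hq, y, hy⟩
  have hx : x ∈ Set.range (yp a h.left q hq) := by
    rw [range_yp]
    exact ⟨y, hy⟩
  obtain ⟨z, rfl⟩ := hx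
  refine ⟨equalizer.lift (yp a h.left q hq) (H q a hq hq1 ha) z, ?_⟩
  rw [← Scheme.Hom.comp_apply, equalizer.lift_ι]

/-- The theorem for a double cover `y ^ 2 = h`. -/
theorem antiPoint_of_doubleCover {A X : Over SQ} [GrpObj A] [IsProper A.hom]
    [GeometricallyIntegral A.hom] (h : X ⟶ Line) [IsReduced (dbl h.left)]
    (hX : Dense (nonSquarePoints h)) (f : DoubleCover h ⟶ A)
    (hf : f ^ 2 ≠ (involution h ≫ f) ^ 2) :
    ∃ (K : Type) (_ : Field K) (_ : Algebra ℚ K), Module.finrank ℚ K = 2 ∧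
        ∃ σ : K ≃ₐ[ℚ] K, σ ≠ AlgEquiv.refl ∧ AntiPoint A K σ := by
  have : IsCommMonObj A := isCommMonObj_of_isProper_of_geometricallyIntegral A
  obtain ⟨q, a, hq, hq1, ha, hne⟩ : ∃ (q : SQ ⟶ X.left) (a : ℚ) (hq : q ≫ h.left = pt a),
      q ≫ X.hom = 𝟙 _ ∧ ¬ IsSquare a ∧
      yp a h.left q hq ≫ (f ^ 2).left ≠ yp a h.left q hq ≫ ((involution h ≫ f) ^ 2).left := by
    by_contra hc
    push Not at hc
    exact hf (eq_of_points h hX hc)
  have : Fact (Irreducible (Polynomial.X ^ 2 - Polynomial.C a : Polynomial ℚ)) :=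
    ⟨irr_of_not_isSquare ha⟩
  let SK : Over SQ := Over.mk (st a)
  let Y : SK ⟶ DoubleCover h := Over.homMk (yp a h.left q hq) (by
    simp only [SK, Over.mk_hom]
    rw [← Category.assoc, yp, pullback.lift_fst, Category.assoc, hq1, Category.comp_id])
  let G : SK ⟶ SK := Over.homMk (gal a) (by simp only [SK, Over.mk_hom]; exact gal_st a)
  have hGY : G ≫ Y = Y ≫ involution h := by
    ext1
    exact gal_yp a h.left q hq
  have hII : involution h ≫ involution h = 𝟙 _ := by
    ext1
    exact invo_invo h.left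
  set g : DoubleCover h ⟶ A := involution h ≫ f with hg
  have hgf : involution h ≫ g = f := by
    rw [hg, ← Category.assoc, hII, Category.id_comp]
  let p : SK ⟶ A := Y ≫ (f / g)
  have hp : G ≫ p = p⁻¹ := by
    change G ≫ Y ≫ (f / g) = (Y ≫ (f / g))⁻¹
    rw [← Category.assoc, hGY, Category.assoc, GrpObj.comp_div, hgf, ← hg, GrpObj.comp_div,
      GrpObj.comp_div, inv_div]
  refine ⟨Qa a, inferInstance, inferInstance, finrank_Qa a, sg a, ?_, p.left, Over.w p, ?_, ?_⟩
  · intro h1
    have h2 := sg_root a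
    rw [h1] at h2
    have h3 := root_sq a
    have h4 : (AdjoinRoot.root (Polynomial.X ^ 2 - Polynomial.C a : Polynomial ℚ)) = 0 := by
      have h5 : (AdjoinRoot.root (Polynomial.X ^ 2 - Polynomial.C a : Polynomial ℚ)) =
        -(AdjoinRoot.root (Polynomial.X ^ 2 - Polynomial.C a : Polynomial ℚ)) := h2
      have : CharZero (Qa a) := algebraRat.charZero (Qa a)
      exact self_eq_neg.mp h5
    rw [h4, zero_pow two_ne_zero] at h3
    have h5 : a = 0 := by
      have := (algebraMap ℚ (Qa a)).injective (h3.symm.trans (map_zero _).symm)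
      exact this
    exact ha (h5 ▸ IsSquare.zero)
  · rintro ⟨s, hs, hps⟩
    apply hne
    have h1 : G ≫ p = p := by
      ext1
      rw [Over.comp_left, hps, ← Category.assoc]
      congr 1
      exact Over.w G
    have h2 : p * p = 1 := by
      rw [h1] at hp
      nth_rewrite 1 [hp]
      exact inv_mul_cancel p
    have h3 : p = (Y ≫ f) / (Y ≫ g) := GrpObj.comp_div _ _ _
    have h4 : ∀ u : DoubleCover h ⟶ A, Y ≫ (u ^ 2) = (Y ≫ u) ^ 2 := fun u => by
      rw [pow_two, pow_two, MonObj.comp_mul]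
    rw [h3, ← pow_two, div_pow, div_eq_one, ← h4, ← h4] at h2
    exact congrArg (fun t => t.left) h2
  · exact congrArg (fun t => t.left) hp

/-- A non-trivial automorphism of a quadratic field is an involution. -/
lemma trans_self {K : Type} [Field K] [Algebra ℚ K] (hK : Module.finrank ℚ K = 2)
    (σ : K ≃ₐ[ℚ] K) : σ.trans σ = AlgEquiv.refl := by
  have : Module.Finite ℚ K := Module.finite_of_finrank_eq_succ hK
  have hG : Fintype.card (K ≃ₐ[ℚ] K) ∣ 2 := by
    have h1 : Fintype.card (K ≃ₐ[ℚ] K) ≤ 2 := hK ▸ AlgEquiv.card_le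
    have h2 : 0 < Fintype.card (K ≃ₐ[ℚ] K) := Fintype.card_pos
    generalize Fintype.card (K ≃ₐ[ℚ] K) = n at h1 h2
    interval_cases n <;> decide
  have h2 : σ ^ 2 = 1 := by
    have h3 := pow_card_eq_one (x := σ)
    obtain ⟨c, hc⟩ := hG
    rw [hc, pow_mul, h3, one_pow]
  rw [pow_two] at h2
  exact h2

end Pool.Agent.MP_4e0920_nt
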